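import Pool.Agent.L7h78.DM.Stm
import Mathlib.Algebra.Lie.Semisimple.Lemmas
import Mathlib.Algebra.Lie.CartanCriterion

set_option autoImplicit false
set_option linter.unusedSectionVars false

/-! Project DM: the root decomposition (`S_RS`). -/

open Module

namespace Pool.Agent.L7h50.DM

open Pool.Agent.Y102.SP Pool.Agent.R912 Pool.Agent.L7h78.DM

attribute [local instance 100] LieRing.ofAssociativeRing

theorem t_RS : S_RS := by
  intro U _ _ _ _ L hbr htr hirr
  let 𝔩 : LieSubalgebra ℂ (Module.End ℂ U) :=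
    { L with lie_mem' := fun {x y} hx hy => hbr x hx y hy }
  have hact : ∀ (x : 𝔩) (u : U), ⁅x, u⁆ = x.1 u := fun x u => rfl
  have i1 : LieModule.IsIrreducible ℂ 𝔩 U := by
    apply LieModule.IsIrreducible.mk
    intro N hN
    have h1 := hirr N.toSubmodule (by
      intro h
      apply hN
      rw [← LieSubmodule.toSubmodule_inj]
      simpa using h) (by
      intro x hx u hu
      exact N.lie_mem (x := (⟨x, hx⟩ : 𝔩)) hu)
    rw [← LieSubmodule.toSubmodule_inj]
    simpa using h1
  have i2 : LieModule.IsFaithful ℂ 𝔩 U := by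
    rw [LieModule.isFaithful_iff']
    intro x hx
    apply Subtype.ext
    apply LinearMap.ext
    intro u
    exact hx u
  have i3 : LieAlgebra.HasTrivialRadical ℂ 𝔩 :=
    LieAlgebra.hasTrivialRadical_of_isIrreducible_of_isFaithful ℂ 𝔩 U (fun x => htr x.1 x.2)
  have i4 : LieAlgebra.IsKilling ℂ 𝔩 := inferInstance
  obtain ⟨T, i1, i2, A, hA⟩ := exists_absRoot' 𝔩
  let ι : T →ₗ[ℂ] Module.End ℂ U := 𝔩.toSubmodule.subtype ∘ₗ A.ι
  let e : Module.Dual ℂ T → Module.End ℂ U := fun α => (A.e α).1
  have hlie : ∀ x y : 𝔩, (⁅x, y⁆ : 𝔩).1 = x.1 * y.1 - y.1 * x.1 := fun x y => rfl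
  have hspan : L ≤ LinearMap.range ι ⊔ Submodule.span ℂ (e '' A.R.Φ) := by
    intro x hx
    have h1 : (⟨x, hx⟩ : 𝔩) ∈ LinearMap.range A.ι ⊔ Submodule.span ℂ (A.e '' A.R.Φ) :=
      A.span trivial
    have h2 : x ∈ (LinearMap.range A.ι ⊔ Submodule.span ℂ (A.e '' A.R.Φ)).map
        𝔩.toSubmodule.subtype := ⟨_, h1, rfl⟩
    rw [Submodule.map_sup, Submodule.map_span, ← Set.image_comp, ← LinearMap.range_comp] at h2
    exact h2
  refine ⟨T, i1, i2, ⟨?_⟩⟩
  exact
    { R := A.R
      cor := hA
      ι := ι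
      h := A.h
      e := e
      ιmem := fun t => (A.ι t).2
      emem := fun α _ => (A.e α).2
      ene := fun α hα h0 => A.ene α hα (Subtype.ext h0)
      span := hspan
      comm := fun s t => by
        have h1 := congrArg Subtype.val (A.comm s t)
        rw [hlie] at h1
        exact sub_eq_zero.1 h1
      wt := fun α hα t => by
        have h1 := congrArg Subtype.val (A.wt α hα t)
        rw [hlie] at h1
        exact h1
      br := fun α hα => by
        have h1 := congrArg Subtype.val (A.br α hα)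
        rw [hlie] at h1
        exact h1
      hneg := A.hneg
      prh := A.prh
      rat := A.rat
      add0 := fun α hα β hβ h0 h1 => by
        have h2 := congrArg Subtype.val (A.add0 α hα β hβ h0 h1)
        rw [hlie] at h2
        exact sub_eq_zero.1 h2
      add1 := fun α hα β hβ h0 => by
        obtain ⟨c, hc⟩ := A.add1 α hα β hβ h0
        have h2 := congrArg Subtype.val hc
        rw [hlie] at h2
        exact ⟨c, h2⟩ }

end Pool.Agent.L7h50.DM
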