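import Pool.Agent.L7h50.DM.Wp

set_option autoImplicit false
set_option linter.unusedSectionVars false

/-! Project DM: no relation between three weights (`S_T3`). -/

open Module

namespace Pool.Agent.L7h50.DM

open Pool.Agent.Y102.SP Pool.Agent.R912 Pool.Agent.L7h78.DM

section T

variable {U : Type} [AddCommGroup U] [Module ℂ U] [FiniteDimensional ℂ U]
  {T : Type} [AddCommGroup T] [Module ℂ T] {L : Submodule ℂ (Module.End ℂ U)} (S : RS L T)

/-- if a nonempty set of weights is closed, it contains all weights -/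
lemma all_of_closed (hirr : Irr L) (Q : Module.Dual ℂ T → Prop)
    (hQ : ∀ α ∈ S.R.Φ, ∀ χ, Q χ → usp S.ι χ ≠ ⊥ → usp S.ι (α + χ) ≠ ⊥ → Q (α + χ))
    {χ₀ : Module.Dual ℂ T} (h0 : Q χ₀) (h1 : usp S.ι χ₀ ≠ ⊥) : ∀ χ, usp S.ι χ ≠ ⊥ → Q χ := by
  have h2 := stable_sum S Q (fun α hα χ hχ h3 ⟨u, hu, hu0⟩ => by
    refine hQ α hα χ hχ ?_ h3
    refine (Submodule.ne_bot_iff _).2 ⟨u, hu, ?_⟩
    rintro rfl
    exact hu0 (map_zero _))
  have h3 : (⨆ χ, ⨆ (_ : Q χ), usp S.ι χ) = ⊤ := by
    refine hirr _ ?_ h2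
    intro hbot
    apply h1
    rw [eq_bot_iff, ← hbot]
    exact le_iSup₂_of_le (f := fun (χ : Module.Dual ℂ T) (_ : Q χ) => usp S.ι χ) χ₀ h0 le_rfl
  intro χ hχ
  by_contra hno
  apply hχ
  have h4 : (⨆ χ, ⨆ (_ : Q χ), usp S.ι χ) ≤ ⨆ ψ, ⨆ (_ : ψ ≠ χ), usp S.ι ψ := by
    refine iSup₂_le fun ψ hψ => ?_
    exact le_iSup₂_of_le (f := fun (ψ : Module.Dual ℂ T) (_ : ψ ≠ χ) => usp S.ι ψ) ψ
      (fun h => hno (h ▸ hψ)) le_rfl
  rw [h3, top_le_iff] at h4
  have h5 := S.usp_indep χ
  simp only [ne_eq] at h4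
  rw [h4, disjoint_top] at h5
  exact h5

/-- a root is a difference of weights -/
lemma root_diff (W : WP S) {δ : Module.Dual ℂ T} (hδ : δ ∈ S.R.Φ) :
    ∃ χ, usp S.ι χ ≠ ⊥ ∧ usp S.ι (δ + χ) ≠ ⊥ := by
  by_contra hno
  push Not at hno
  apply S.ene δ hδ
  have h1 : (⊤ : Submodule ℂ U) ≤ LinearMap.ker (S.e δ) := by
    rw [← W.top]
    refine iSup_le fun χ u hu => ?_
    rw [LinearMap.mem_ker]
    by_cases hχ : usp S.ι χ = ⊥
    · rw [hχ, Submodule.mem_bot] at hu
      rw [hu, map_zero]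
    · have h2 := hno χ hχ
      have h3 := S.usp_mul (fun t => S.wt δ hδ t) hu
      rw [h2, Submodule.mem_bot] at h3
      exact h3
  rw [top_le_iff, LinearMap.ker_eq_top] at h1
  exact h1

lemma core (hirr : Irr L) (W : WP S) {x y z : Module.Dual ℂ T} (hx : usp S.ι x ≠ ⊥)
    (hy : usp S.ι y ≠ ⊥) (hz : usp S.ι z ≠ ⊥) (hx0 : x ≠ 0)
    (hall : ∀ χ, usp S.ι χ ≠ ⊥ → χ = x ∨ χ = -x ∨ χ = y ∨ χ = -y ∨ χ = z ∨ χ = -z)
    (hsum : x + y + z = 0) (hγ : -(x + x) ∈ S.R.Φ) : False := by
  obtain ⟨γ, hγd⟩ : ∃ γ, γ = -(x + x) := ⟨_, rfl⟩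
  rw [← hγd] at hγ
  have hγ2 : γ = (-2 : ℚ) • x := by rw [hγd]; module
  have px : S.R.pr γ x = -1 := by
    have h1 := S.R.two γ hγ
    nth_rewrite 2 [hγ2] at h1
    rw [map_smul, smul_eq_mul] at h1
    linarith
  -- a weight with a nonzero pairing is a multiple of `x`
  have step : ∀ b c : Module.Dual ℂ T, usp S.ι b ≠ ⊥ → x + b + c = 0 →
      (∀ χ, usp S.ι χ ≠ ⊥ → χ = x ∨ χ = -x ∨ χ = b ∨ χ = -b ∨ χ = c ∨ χ = -c) →
      S.R.pr γ b ≠ 0 → ∃ q : ℚ, b = q • x := by
    intro b c hb hs hall hk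
    obtain ⟨k, hkk⟩ := W.int γ hγ b hb
    have h1 := W.refl γ hγ b hb
    have h2 : usp S.ι (b - S.R.pr γ b • γ) ≠ ⊥ := by
      intro h3
      rw [h3, finrank_bot] at h1
      exact hb (Submodule.finrank_eq_zero.1 h1.symm)
    have h3 : b - S.R.pr γ b • γ = b + (2 * k : ℚ) • x := by
      rw [hkk, hγ2]
      module
    rw [h3] at h2
    have hc : c = -x - b := by
      linear_combination (norm := module) hs
    rcases hall _ h2 with h | h | h | h | h | h
    · exact ⟨1 - 2 * k, by linear_combination (norm := module) h⟩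
    · exact ⟨-1 - 2 * k, by linear_combination (norm := module) h⟩
    · exfalso
      have h4 : (2 * k : ℚ) • x = 0 := by linear_combination (norm := module) h
      rw [smul_eq_zero] at h4
      rcases h4 with h4 | h4
      · apply hk
        rw [hkk]
        linarith
      · exact hx0 h4
    · refine ⟨-k, ?_⟩
      have h4 : (2 : ℚ) • b = (2 : ℚ) • ((-k : ℚ) • x) := by linear_combination (norm := module) h
      exact smul_right_injective _ (by norm_num : (2 : ℚ) ≠ 0) h4
    · refine ⟨-(1 + 2 * k) / 2, ?_⟩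
      have h4 : (2 : ℚ) • b = (2 : ℚ) • ((-(1 + 2 * k) / 2 : ℚ) • x) := by
        rw [hc] at h
        linear_combination (norm := module) h
      exact smul_right_injective _ (by norm_num : (2 : ℚ) ≠ 0) h4
    · exfalso
      rw [hc] at h
      have h4 : (2 * k - 1 : ℚ) • x = 0 := by linear_combination (norm := module) h
      rw [smul_eq_zero] at h4
      rcases h4 with h4 | h4
      · have h5 : (2 * k - 1 : ℤ) = 0 := by exact_mod_cast h4
        omega
      · exact hx0 h4
  -- all weights are rational multiples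
  have hyz : (∃ q : ℚ, y = q • x) ∧ (∃ q : ℚ, z = q • x) := by
    have h1 : S.R.pr γ y + S.R.pr γ z = 1 := by
      have h2 : S.R.pr γ (x + y + z) = 0 := by rw [hsum, map_zero]
      rw [map_add, map_add, px] at h2
      linarith
    by_cases hy0 : S.R.pr γ y = 0
    · have hz0 : S.R.pr γ z ≠ 0 := by
        rw [hy0, zero_add] at h1
        rw [h1]
        norm_num
      obtain ⟨q, hq⟩ := step z y hz (by rw [← hsum]; abel) (fun χ hχ => by
        rcases hall χ hχ with h | h | h | h | h | h <;> tauto) hz0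
      refine ⟨⟨-1 - q, ?_⟩, ⟨q, hq⟩⟩
      rw [hq] at hsum
      linear_combination (norm := module) hsum
    · obtain ⟨q, hq⟩ := step y z hy hsum hall hy0
      refine ⟨⟨q, hq⟩, ⟨-1 - q, ?_⟩⟩
      rw [hq] at hsum
      linear_combination (norm := module) hsum
  obtain ⟨⟨qy, hqy⟩, ⟨qz, hqz⟩⟩ := hyz
  have hmul : ∀ χ, usp S.ι χ ≠ ⊥ → ∃ q : ℚ, χ = q • x := by
    intro χ hχ
    rcases hall χ hχ with h | h | h | h | h | h
    · exact ⟨1, by rw [h, one_smul]⟩
    · exact ⟨-1, by rw [h]; module⟩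
    · exact ⟨qy, by rw [h, hqy]⟩
    · exact ⟨-qy, by rw [h, hqy]; module⟩
    · exact ⟨qz, by rw [h, hqz]⟩
    · exact ⟨-qz, by rw [h, hqz]; module⟩
  have hroot : ∀ δ ∈ S.R.Φ, δ = γ ∨ δ = -γ := by
    intro δ hδ
    obtain ⟨χ, h1, h2⟩ := root_diff S W hδ
    obtain ⟨q, hq⟩ := hmul χ h1
    obtain ⟨r, hr⟩ := hmul _ h2
    have h3 : δ = ((q - r) / 2) • γ := by
      rw [hγ2]
      rw [hq] at hr
      linear_combination (norm := module) hr
    have h4 := S.R.red γ hγ ((q - r) / 2) (by rw [← h3]; exact hδ)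
    rcases h4 with h4 | h4
    · left
      rw [h3, h4, one_smul]
    · right
      rw [h3, h4, neg_one_smul]
  have hodd := all_of_closed S hirr (fun χ => ∃ n : ℤ, χ = (2 * n + 1 : ℚ) • x) (by
    rintro α hα χ ⟨n, hn⟩ _ _
    rcases hroot α hα with h | h
    · refine ⟨n - 1, ?_⟩
      rw [h, hn, hγ2]
      push_cast
      module
    · refine ⟨n + 1, ?_⟩
      rw [h, hn, hγ2]
      push_cast
      module) (χ₀ := x) ⟨0, by simp⟩ hx
  obtain ⟨m, hm⟩ := hodd y hy
  obtain ⟨n, hn⟩ := hodd z hz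
  have h4 : (2 * m + 2 * n + 3 : ℚ) • x = 0 := by
    rw [hm, hn] at hsum
    linear_combination (norm := module) hsum
  rw [smul_eq_zero] at h4
  rcases h4 with h4 | h4
  · have h5 : (2 * m + 2 * n + 3 : ℤ) = 0 := by exact_mod_cast h4
    omega
  · exact hx0 h4

lemma six (W : WP S) (h6 : finrank ℂ U = 6) {x y z : Module.Dual ℂ T}
    (hx : usp S.ι x ≠ ⊥) (hx' : usp S.ι (-x) ≠ ⊥) (hy : usp S.ι y ≠ ⊥) (hy' : usp S.ι (-y) ≠ ⊥)
    (hz : usp S.ι z ≠ ⊥) (hz' : usp S.ι (-z) ≠ ⊥) (hx0 : x ≠ 0) (hy0 : y ≠ 0) (hz0 : z ≠ 0)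
    (h1 : x ≠ y) (h2 : x ≠ -y) (h3 : x ≠ z) (h4 : x ≠ -z) (h5 : y ≠ z) (h7 : y ≠ -z) :
    ∀ χ, usp S.ι χ ≠ ⊥ → χ = x ∨ χ = -x ∨ χ = y ∨ χ = -y ∨ χ = z ∨ χ = -z := by
  classical
  intro χ hχ
  by_contra hno
  push Not at hno
  obtain ⟨n1, n2, n3, n4, n5, n6⟩ := hno
  have hne : ∀ v : Module.Dual ℂ T, v ≠ 0 → v ≠ -v := by
    intro v hv h
    apply hv
    have h8 : (2 : ℚ) • v = 0 := by
      rw [two_smul]
      nth_rewrite 1 [h]
      simp
    exact (smul_eq_zero.1 h8).resolve_left (by norm_num)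
  have pos : ∀ ψ, usp S.ι ψ ≠ ⊥ → 1 ≤ finrank ℂ (usp S.ι ψ) := by
    intro ψ hψ
    rw [Nat.one_le_iff_ne_zero]
    intro h
    exact hψ (Submodule.finrank_eq_zero.1 h)
  have hc := W.card {χ, x, -x, y, -y, z, -z}
  have e1 : χ ∉ ({x, -x, y, -y, z, -z} : Finset (Module.Dual ℂ T)) := by
    simp only [Finset.mem_insert, Finset.mem_singleton, not_or]
    exact ⟨n1, n2, n3, n4, n5, n6⟩
  have e2 : x ∉ ({-x, y, -y, z, -z} : Finset (Module.Dual ℂ T)) := by
    simp only [Finset.mem_insert, Finset.mem_singleton, not_or]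
    exact ⟨hne x hx0, h1, h2, h3, h4⟩
  have e3 : -x ∉ ({y, -y, z, -z} : Finset (Module.Dual ℂ T)) := by
    simp only [Finset.mem_insert, Finset.mem_singleton, not_or]
    exact ⟨fun h => h2 (by rw [← h, neg_neg]), fun h => h1 (neg_injective h),
      fun h => h4 (by rw [← h, neg_neg]), fun h => h3 (neg_injective h)⟩
  have e4 : y ∉ ({-y, z, -z} : Finset (Module.Dual ℂ T)) := by
    simp only [Finset.mem_insert, Finset.mem_singleton, not_or]
    exact ⟨hne y hy0, h5, h7⟩
  have e5 : -y ∉ ({z, -z} : Finset (Module.Dual ℂ T)) := by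
    simp only [Finset.mem_insert, Finset.mem_singleton, not_or]
    exact ⟨fun h => h7 (by rw [← h, neg_neg]), fun h => h5 (neg_injective h)⟩
  have e6 : z ∉ ({-z} : Finset (Module.Dual ℂ T)) := by
    simp only [Finset.mem_singleton]
    exact hne z hz0
  rw [Finset.sum_insert e1, Finset.sum_insert e2, Finset.sum_insert e3, Finset.sum_insert e4,
    Finset.sum_insert e5, Finset.sum_insert e6, Finset.sum_singleton, h6] at hc
  have := pos _ hχ
  have := pos _ hx
  have := pos _ hx'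
  have := pos _ hy
  have := pos _ hy'
  have := pos _ hz
  have := pos _ hz'
  omega

end T

theorem t_T3 : S_T3 := by
  intro U _ _ _ _ T _ _ L S hirr W h6 x y z hx hx' hy hy' hz hz' hx0 hy0 hz0 h1 h2 h3 h4 h5 h7 hsum
  have hall := six S W h6 hx hx' hy hy' hz hz' hx0 hy0 hz0 h1 h2 h3 h4 h5 h7
  have hne : ∀ v : Module.Dual ℂ T, v ≠ 0 → v ≠ -v := by
    intro v hv h
    apply hv
    have h8 : (2 : ℚ) • v = 0 := by
      rw [two_smul]
      nth_rewrite 1 [h]
      simp
    exact (smul_eq_zero.1 h8).resolve_left (by norm_num)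
  -- zero is not a weight
  have hzero : usp S.ι (0 : Module.Dual ℂ T) = ⊥ := by
    by_contra h
    rcases hall 0 h with h | h | h | h | h | h
    · exact hx0 h.symm
    · exact hx0 (neg_eq_zero.1 h.symm)
    · exact hy0 h.symm
    · exact hy0 (neg_eq_zero.1 h.symm)
    · exact hz0 h.symm
    · exact hz0 (neg_eq_zero.1 h.symm)
  -- no root is a weight
  have hnr : ∀ γ ∈ S.R.Φ, usp S.ι γ = ⊥ := by
    intro γ hγ
    by_contra h
    have h8 := W.str γ hγ γ 1 (by rw [S.R.two γ hγ]; norm_num) h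
    rw [Nat.cast_one, one_smul, sub_self] at h8
    exact h8 hzero
  -- the set of the three weights is not closed
  have hcl : ∀ α ∈ S.R.Φ, ∀ χ, (χ = x ∨ χ = y ∨ χ = z) → usp S.ι χ ≠ ⊥ → usp S.ι (α + χ) ≠ ⊥ →
      (α + χ = x ∨ α + χ = y ∨ α + χ = z) := by
    intro α hα χ hχ _ hαχ
    by_contra hno
    push Not at hno
    obtain ⟨n1, n2, n3⟩ := hno
    have h8 : α + χ = -x ∨ α + χ = -y ∨ α + χ = -z := by
      rcases hall _ hαχ with h | h | h | h | h | h <;> tauto
    rcases hχ with rfl | rfl | rfl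
    · rcases h8 with h | h | h
      · apply core S hirr W hx hy hz hx0 hall hsum
        have : -(χ + χ) = α := by linear_combination (norm := module) -h
        rw [this]; exact hα
      · have : α = z := by linear_combination (norm := module) h - hsum
        exact hz (by rw [← this]; exact hnr α hα)
      · have : α = y := by linear_combination (norm := module) h - hsum
        exact hy (by rw [← this]; exact hnr α hα)
    · rcases h8 with h | h | h
      · have : α = z := by linear_combination (norm := module) h - hsum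
        exact hz (by rw [← this]; exact hnr α hα)
      · apply core S hirr W hy hz hx hy0 (fun ψ hψ => by
          rcases hall ψ hψ with h | h | h | h | h | h <;> tauto) (by rw [← hsum]; abel)
        have : -(χ + χ) = α := by linear_combination (norm := module) -h
        rw [this]; exact hα
      · have : α = x := by linear_combination (norm := module) h - hsum
        exact hx (by rw [← this]; exact hnr α hα)
    · rcases h8 with h | h | h
      · have : α = y := by linear_combination (norm := module) h - hsum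
        exact hy (by rw [← this]; exact hnr α hα)
      · have : α = x := by linear_combination (norm := module) h - hsum
        exact hx (by rw [← this]; exact hnr α hα)
      · apply core S hirr W hz hx hy hz0 (fun ψ hψ => by
          rcases hall ψ hψ with h | h | h | h | h | h <;> tauto) (by rw [← hsum]; abel)
        have : -(χ + χ) = α := by linear_combination (norm := module) -h
        rw [this]; exact hα
  have h9 := all_of_closed S hirr (fun χ => χ = x ∨ χ = y ∨ χ = z) hcl (Or.inl rfl) hx (-x) hx'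
  rcases h9 with h | h | h
  · exact hne x hx0 h.symm
  · exact h2 (by rw [← h, neg_neg])
  · exact h4 (by rw [← h, neg_neg])

end Pool.Agent.L7h50.DM
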