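import Pool.Agent.L7h78.DM.Stm
import Pool.Agent.Y102.SP.Kil

set_option autoImplicit false
set_option linter.unusedSectionVars false

/-! Project DM: the properties of the weights (`S_WP`). -/

open Module

namespace Pool.Agent.L7h50.DM

open Pool.Agent.Y102.SP Pool.Agent.R912 Pool.Agent.L7h78.DM

attribute [local instance 100] LieRing.ofAssociativeRing

section Sl2

variable {U : Type} [AddCommGroup U] [Module ℂ U] [FiniteDimensional ℂ U]
  {h e f : Module.End ℂ U} (t : IsSl2Triple h e f)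

include t

lemma he (u : U) : h (e u) = e (h u) + (2 : ℂ) • e u := by
  have h1 := t.lie_h_e_nsmul
  rw [Ring.lie_def] at h1
  have h2 := LinearMap.congr_fun h1 u
  rw [LinearMap.sub_apply, Module.End.mul_apply, Module.End.mul_apply, LinearMap.smul_apply,
    ← ofNat_smul_eq_nsmul ℂ 2] at h2
  rw [← h2]
  abel

lemma hf (u : U) : h (f u) = f (h u) - (2 : ℂ) • f u := by
  have h1 := t.lie_h_f_nsmul
  rw [Ring.lie_def] at h1
  have h2 := LinearMap.congr_fun h1 u
  rw [LinearMap.sub_apply, Module.End.mul_apply, Module.End.mul_apply, LinearMap.neg_apply,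
    LinearMap.smul_apply, ← ofNat_smul_eq_nsmul ℂ 2] at h2
  rw [sub_eq_add_neg, ← h2]
  abel

lemma ef (u : U) : e (f u) = f (e u) + h u := by
  have h1 := t.lie_e_f
  rw [Ring.lie_def] at h1
  have h2 := LinearMap.congr_fun h1 u
  rw [LinearMap.sub_apply, Module.End.mul_apply, Module.End.mul_apply] at h2
  rw [← h2]
  abel

lemma hfn {u : U} {μ : ℂ} (hu : h u = μ • u) (n : ℕ) : h ((f ^ n) u) = (μ - 2 * n) • (f ^ n) u := by
  induction n with
  | zero => simp [hu]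
  | succ n ih =>
    rw [pow_succ', Module.End.mul_apply, hf t, ih, map_smul, ← sub_smul]
    congr 1
    push_cast
    ring

lemma efn {u : U} {μ : ℂ} (hu : h u = μ • u) (n : ℕ) :
    e ((f ^ (n + 1)) u) = (f ^ (n + 1)) (e u) + ((n + 1) * (μ - n)) • (f ^ n) u := by
  induction n with
  | zero =>
    rw [zero_add, pow_one, ef t, hu]
    simp
  | succ n ih =>
    rw [pow_succ' f (n + 1), Module.End.mul_apply, ef t, ih, map_add, map_smul, Module.End.mul_apply, hfn t hu,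
      add_assoc]
    congr 1
    have h1 : f ((f ^ n) u) = (f ^ (n + 1)) u := by rw [pow_succ', Module.End.mul_apply]
    rw [h1, ← add_smul]
    congr 1
    push_cast
    ring

lemma enil {u : U} {μ : ℂ} (hu : h u = μ • u) : ∃ k, (e ^ k) u = 0 := by
  by_contra hcon
  push Not at hcon
  have hh : ∀ n : ℕ, h ((e ^ n) u) = (μ + 2 * n) • (e ^ n) u := by
    intro n
    induction n with
    | zero => simp [hu]
    | succ n ih =>
      rw [pow_succ', Module.End.mul_apply, he t, ih, map_smul, ← add_smul]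
      congr 1
      push_cast
      ring
  have hinj : Function.Injective (fun n : ℕ => μ + 2 * (n : ℂ)) := fun a b hab => by
    simpa [add_right_inj, mul_eq_mul_left_iff, Nat.cast_inj] using hab
  have aux (ν : Set.range (fun n : ℕ => μ + 2 * (n : ℂ))) : h.HasEigenvector ν
      ((e ^ ν.property.choose) u) := by
    refine ⟨?_, hcon _⟩
    rw [Module.End.mem_eigenspace_iff]
    have h1 : μ + 2 * (ν.property.choose : ℂ) = ν := ν.property.choose_spec
    have h2 := hh ν.property.choose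
    rw [h1] at h2
    exact h2
  have _i := (h.eigenvectors_linearIndependent (Set.range (fun n : ℕ => μ + 2 * (n : ℂ))) _ aux).finite
  exact (Set.infinite_range_of_injective hinj) (Set.toFinite _)

/-- powers of `f` are injective on the vectors of weight `j` -/
lemma sl2_inj (m : ℕ) : ∀ (j : ℕ) (u : U), h u = (j : ℂ) • u → (e ^ m) u = 0 → (f ^ j) u = 0 → u = 0 := by
  induction m with
  | zero =>
    intro j u _ h1 _
    simpa using h1
  | succ m ih =>
    intro j u hu h1 h2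
    have h3 : (f ^ (j + 1)) u = 0 := by
      rw [pow_succ', Module.End.mul_apply, h2, map_zero]
    have h4 := efn t hu j
    rw [h3, map_zero, sub_self, mul_zero, zero_smul, add_zero] at h4
    have h5 : (f ^ (j + 2)) (e u) = 0 := by
      rw [pow_succ' f (j + 1), Module.End.mul_apply, ← h4, map_zero]
    have h6 : h (e u) = ((j + 2 : ℕ) : ℂ) • e u := by
      rw [he t, hu, map_smul, ← add_smul]
      push_cast
      rfl
    have h7 : (e ^ m) (e u) = 0 := by
      rw [← Module.End.mul_apply, ← pow_succ]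
      exact h1
    have h8 := ih (j + 2) (e u) h6 h7 h5
    by_contra hu0
    have hP : t.HasPrimitiveVectorWith u (j : ℂ) := ⟨hu0, hu, h8⟩
    have h9 := hP.pow_toEnd_f_ne_zero_of_eq_nat rfl le_rfl
    apply h9
    have h10 : ∀ n : ℕ, ∀ v : U, ((LieModule.toEnd ℂ (Module.End ℂ U) U f) ^ n) v = (f ^ n) v := by
      intro n
      induction n with
      | zero => intro v; simp
      | succ n ih =>
        intro v
        rw [pow_succ', Module.End.mul_apply, ih, pow_succ' f, Module.End.mul_apply]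
        rfl
    rw [h10, h2]

end Sl2

section W

variable {U : Type} [AddCommGroup U] [Module ℂ U] [FiniteDimensional ℂ U]
  {T : Type} [AddCommGroup T] [Module ℂ T] {L : Submodule ℂ (Module.End ℂ U)} (S : RS L T)

lemma exists_of {χ : Module.Dual ℂ T} (h : usp S.ι χ ≠ ⊥) : ∃ u ∈ usp S.ι χ, u ≠ 0 :=
  (Submodule.ne_bot_iff _).1 h

lemma w_int {α : Module.Dual ℂ T} (hα : α ∈ S.R.Φ) {χ : Module.Dual ℂ T} (hχ : usp S.ι χ ≠ ⊥) :
    (∃ n : ℤ, S.R.pr α χ = n) ∧ χ (S.h α) = (S.R.pr α χ : ℂ) := by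
  obtain ⟨u, hu, hu0⟩ := exists_of S hχ
  have h1 : ⁅S.ι (S.h α), u⁆ = χ (S.h α) • u := hu _
  obtain ⟨n, k, -, h2⟩ := Wt_prim (S.triple hα) hu0 h1
  have h3 : χ (S.h α) = (S.R.pr α χ : ℂ) :=
    S.prh α hα χ ⟨(n : ℚ) - 2 * k, by rw [h2]; push_cast; ring⟩
  refine ⟨⟨(n : ℤ) - 2 * k, ?_⟩, h3⟩
  rw [h2] at h3
  have h4 : ((S.R.pr α χ : ℚ) : ℂ) = (((n : ℚ) - 2 * k : ℚ) : ℂ) := by
    rw [← h3]
    push_cast
    ring
  have h5 := Rat.cast_injective h4
  rw [h5]
  push_cast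
  ring

lemma w_inj {α : Module.Dual ℂ T} (hα : α ∈ S.R.Φ) {χ : Module.Dual ℂ T} {j : ℕ} (hj : S.R.pr α χ = j)
    {x : U} (hx : x ∈ usp S.ι χ) (h0 : (S.e (-α) ^ j) x = 0) : x = 0 := by
  by_contra hx0
  have hχ : usp S.ι χ ≠ ⊥ := (Submodule.ne_bot_iff _).2 ⟨x, hx, hx0⟩
  have h1 : S.ι (S.h α) x = (j : ℂ) • x := by
    rw [hx (S.h α), (w_int S hα hχ).2, hj]
    push_cast
    rfl
  obtain ⟨k, hk⟩ := enil (S.triple hα) h1
  exact hx0 (sl2_inj (S.triple hα) k j x h1 hk h0)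

lemma w_pow {α : Module.Dual ℂ T} (hα : α ∈ S.R.Φ) {χ : Module.Dual ℂ T} {x : U} (hx : x ∈ usp S.ι χ) (k : ℕ) :
    (S.e α ^ k) x ∈ usp S.ι (χ + (k : ℚ) • α) := by
  induction k with
  | zero => simpa using hx
  | succ k ih =>
    rw [pow_succ', Module.End.mul_apply]
    have h1 := S.usp_mul (fun t => S.wt α hα t) ih
    have h2 : α + (χ + (k : ℚ) • α) = χ + ((k + 1 : ℕ) : ℚ) • α := by
      push_cast
      rw [add_smul, one_smul]
      abel
    rwa [h2] at h1

lemma w_le {α : Module.Dual ℂ T} (hα : α ∈ S.R.Φ) {χ : Module.Dual ℂ T} {j : ℕ} (hj : S.R.pr α χ = j) :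
    finrank ℂ (usp S.ι χ) ≤ finrank ℂ (usp S.ι (χ - (j : ℚ) • α)) := by
  have h1 : ∀ x ∈ usp S.ι χ, (S.e (-α) ^ j) x ∈ usp S.ι (χ - (j : ℚ) • α) := by
    intro x hx
    have h2 := w_pow S (S.R.neg α hα) hx j
    rw [smul_neg, ← sub_eq_add_neg] at h2
    exact h2
  have hinj : Function.Injective ((S.e (-α) ^ j).restrict h1) := by
    rw [← LinearMap.ker_eq_bot, LinearMap.ker_eq_bot']
    intro x hx
    have h2 : (S.e (-α) ^ j) x.1 = 0 := congrArg Subtype.val hx
    exact Subtype.ext (w_inj S hα hj x.2 h2)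
  exact LinearMap.finrank_le_finrank_of_injective hinj

lemma w_refl {α : Module.Dual ℂ T} (hα : α ∈ S.R.Φ) {χ : Module.Dual ℂ T} (hχ : usp S.ι χ ≠ ⊥) :
    finrank ℂ (usp S.ι (χ - S.R.pr α χ • α)) = finrank ℂ (usp S.ι χ) := by
  obtain ⟨⟨n, hn⟩, -⟩ := w_int S hα hχ
  rcases le_total 0 n with h | h
  · obtain ⟨j, rfl⟩ := Int.eq_ofNat_of_zero_le h
    have h1 : S.R.pr α χ = (j : ℚ) := by rw [hn]; norm_cast
    rw [h1]
    apply le_antisymm _ (w_le S hα h1)
    have h2 : S.R.pr (-α) (χ - (j : ℚ) • α) = (j : ℚ) := by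
      rw [S.R.pneg α hα, map_sub, map_smul, S.R.two α hα, h1, smul_eq_mul]
      ring
    have h3 := w_le S (S.R.neg α hα) h2
    rwa [smul_neg, sub_neg_eq_add, sub_add_cancel] at h3
  · obtain ⟨j, hj⟩ := Int.eq_ofNat_of_zero_le (neg_nonneg.2 h)
    have h0 : S.R.pr α χ = -(j : ℚ) := by
      rw [hn]
      have : ((-n : ℤ) : ℚ) = ((j : ℤ) : ℚ) := by rw [hj]
      push_cast at this
      linarith
    have h1 : S.R.pr (-α) χ = (j : ℚ) := by
      rw [S.R.pneg α hα, h0]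
      ring
    have h2 : χ - S.R.pr α χ • α = χ - (j : ℚ) • (-α) := by
      rw [h0, neg_smul, smul_neg]
    rw [h2]
    apply le_antisymm _ (w_le S (S.R.neg α hα) h1)
    have h3 : S.R.pr α (χ - (j : ℚ) • (-α)) = (j : ℚ) := by
      rw [map_sub, map_smul, map_neg, S.R.two α hα, h0, smul_eq_mul]
      ring
    have h4 := w_le S hα h3
    rw [smul_neg, sub_neg_eq_add, add_sub_cancel_right] at h4
    rw [smul_neg, sub_neg_eq_add]
    exact h4

lemma w_str {α : Module.Dual ℂ T} (hα : α ∈ S.R.Φ) {χ : Module.Dual ℂ T} {j : ℕ} (hj : (j : ℚ) ≤ S.R.pr α χ)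
    (hχ : usp S.ι χ ≠ ⊥) : usp S.ι (χ - (j : ℚ) • α) ≠ ⊥ := by
  obtain ⟨⟨n, hn⟩, -⟩ := w_int S hα hχ
  obtain ⟨x, hx, hx0⟩ := exists_of S hχ
  have h0 : 0 ≤ n := by
    have : (0 : ℚ) ≤ n := by rw [← hn]; exact le_trans (Nat.cast_nonneg j) hj
    exact_mod_cast this
  obtain ⟨m, rfl⟩ := Int.eq_ofNat_of_zero_le h0
  have h1 : S.R.pr α χ = (m : ℚ) := by rw [hn]; norm_cast
  have hjm : j ≤ m := by
    rw [h1] at hj
    exact_mod_cast hj
  have h2 := w_pow S (S.R.neg α hα) hx j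
  rw [smul_neg, ← sub_eq_add_neg] at h2
  refine (Submodule.ne_bot_iff _).2 ⟨_, h2, ?_⟩
  intro h3
  apply hx0
  apply w_inj S hα h1 hx
  obtain ⟨k, rfl⟩ := Nat.exists_eq_add_of_le hjm
  rw [add_comm j k, pow_add, Module.End.mul_apply, h3, map_zero]

lemma w_card (F : Finset (Module.Dual ℂ T)) : ∑ χ ∈ F, finrank ℂ (usp S.ι χ) ≤ finrank ℂ U := by
  classical
  have key : ∀ F : Finset (Module.Dual ℂ T),
      finrank ℂ (⨆ χ ∈ F, usp S.ι χ : Submodule ℂ U) = ∑ χ ∈ F, finrank ℂ (usp S.ι χ) := by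
    intro F
    induction F using Finset.induction_on with
    | empty => simp
    | insert a F ha ih =>
      rw [Finset.sum_insert ha, ← ih, Finset.iSup_insert]
      have h1 := Submodule.finrank_sup_add_finrank_inf_eq (usp S.ι a) (⨆ χ ∈ F, usp S.ι χ : Submodule ℂ U)
      have h2 : usp S.ι a ⊓ (⨆ χ ∈ F, usp S.ι χ : Submodule ℂ U) = ⊥ := by
        rw [← disjoint_iff]
        refine (S.usp_indep a).mono_right ?_
        refine iSup₂_le fun χ hχ => ?_
        exact le_iSup₂_of_le χ (fun h => ha (h ▸ hχ)) le_rfl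
      rw [h2, finrank_bot, add_zero] at h1
      exact h1
  rw [← key]
  exact Submodule.finrank_le _

lemma stable_of_span {P : Submodule ℂ U} (hι : ∀ t, ∀ u ∈ P, S.ι t u ∈ P)
    (he : ∀ α ∈ S.R.Φ, ∀ u ∈ P, S.e α u ∈ P) : ∀ x ∈ L, ∀ u ∈ P, x u ∈ P := by
  intro y hy u hu
  obtain ⟨y1, ⟨t, rfl⟩, z, hz, rfl⟩ := Submodule.mem_sup.1 (S.span hy)
  rw [LinearMap.add_apply]
  refine Submodule.add_mem _ (hι t u hu) ?_
  clear hy
  induction hz using Submodule.span_induction with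
  | mem z hz =>
    obtain ⟨α, hα, rfl⟩ := hz
    exact he α hα u hu
  | zero => exact Submodule.zero_mem _
  | add y z _ _ hy hz => exact Submodule.add_mem _ hy hz
  | smul c z _ hz => exact Submodule.smul_mem _ c hz

/-- sums of weight spaces over sets which are closed under the addition of roots (if the vector does not vanish) -/
lemma stable_sum (Q : Module.Dual ℂ T → Prop)
    (hQ : ∀ α ∈ S.R.Φ, ∀ χ, Q χ → usp S.ι (α + χ) ≠ ⊥ → (∃ u ∈ usp S.ι χ, S.e α u ≠ 0) → Q (α + χ)) :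
    ∀ x ∈ L, ∀ u ∈ (⨆ χ, ⨆ (_ : Q χ), usp S.ι χ), x u ∈ (⨆ χ, ⨆ (_ : Q χ), usp S.ι χ) := by
  have hle : ∀ χ, Q χ → usp S.ι χ ≤ ⨆ χ, ⨆ (_ : Q χ), usp S.ι χ := fun χ hχ =>
    le_iSup₂_of_le (f := fun (χ : Module.Dual ℂ T) (_ : Q χ) => usp S.ι χ) χ hχ le_rfl
  apply stable_of_span S
  · intro t
    have h1 : (⨆ χ, ⨆ (_ : Q χ), usp S.ι χ) ≤ (⨆ χ, ⨆ (_ : Q χ), usp S.ι χ).comap (S.ι t) := by
      refine iSup₂_le fun χ hχ u hu => ?_
      rw [Submodule.mem_comap, hu t]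
      exact Submodule.smul_mem _ _ (hle χ hχ hu)
    exact fun u hu => h1 hu
  · intro α hα
    have h1 : (⨆ χ, ⨆ (_ : Q χ), usp S.ι χ) ≤ (⨆ χ, ⨆ (_ : Q χ), usp S.ι χ).comap (S.e α) := by
      refine iSup₂_le fun χ hχ u hu => ?_
      rw [Submodule.mem_comap]
      by_cases h0 : S.e α u = 0
      · rw [h0]
        exact Submodule.zero_mem _
      · have h2 := S.usp_mul (fun t => S.wt α hα t) hu
        exact hle _ (hQ α hα χ hχ ((Submodule.ne_bot_iff _).2 ⟨_, h2, h0⟩) ⟨u, hu, h0⟩) h2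
    exact fun u hu => h1 hu

lemma w_top [Nontrivial U] (hirr : Irr L) : ⨆ χ, usp S.ι χ = ⊤ := by
  have h1 := stable_sum S (fun _ => True) (fun _ _ _ _ _ _ => trivial)
  simp only [iSup_pos] at h1
  refine hirr _ ?_ h1
  obtain ⟨χ, u, -, hu0, hχ⟩ := kil_eig S.ι S.comm _ (⊤ : Submodule ℂ U) le_rfl top_ne_bot (fun _ _ _ => trivial)
  refine (Submodule.ne_bot_iff _).2 ⟨u, ?_, hu0⟩
  exact (le_iSup (fun χ => usp S.ι χ) χ) hχ

end W

theorem t_WP : S_WP := by
  intro U _ _ _ _ T _ _ L S hirr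
  exact {
    top := w_top S hirr
    int := fun α hα χ hχ => (w_int S hα hχ).1
    eig := fun α hα χ hχ => (w_int S hα hχ).2
    inj := fun α hα χ j hj x hx h0 => w_inj S hα hj hx h0
    refl := fun α hα χ hχ => w_refl S hα hχ
    str := fun α hα χ j hj hχ => w_str S hα hj hχ
    card := w_card S }

end Pool.Agent.L7h50.DM
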